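import Pool.Agent.Helper60_AK.StmtB

/-!
Squad AK (MP_d7b937_an), module C1: structure equations of the frame.
-/

set_option autoImplicit false

namespace Pool.Agent.AK.H72

open Complex Pool.Agent.AK

/-! ### Calculus for `dzb` -/

theorem cda_dzb {V : Type*} [NormedAddCommGroup V] [NormedSpace ℂ V] {m n : WithTop ℕ∞}
    {f : C2 → V} {p : C2} (k : Fin 2) (hf : ContDiffAt ℝ n f p) (hmn : m + 1 ≤ n) :
    ContDiffAt ℝ m (dzb k f) p := by
  have h1 : ContDiffAt ℝ m (fderiv ℝ f) p := hf.fderiv_right hmn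
  exact contDiffAt_const.smul ((h1.clm_apply contDiffAt_const).add
    (contDiffAt_const.smul (h1.clm_apply contDiffAt_const)))

theorem cda_dz {V : Type*} [NormedAddCommGroup V] [NormedSpace ℂ V] {m n : WithTop ℕ∞}
    {f : C2 → V} {p : C2} (k : Fin 2) (hf : ContDiffAt ℝ n f p) (hmn : m + 1 ≤ n) :
    ContDiffAt ℝ m (dz k f) p := by
  have h1 : ContDiffAt ℝ m (fderiv ℝ f) p := hf.fderiv_right hmn
  exact contDiffAt_const.smul ((h1.clm_apply contDiffAt_const).sub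
    (contDiffAt_const.smul (h1.clm_apply contDiffAt_const)))

theorem sm_dzb {V : Type*} [NormedAddCommGroup V] [NormedSpace ℂ V]
    {f : C2 → V} {p : C2} (k : Fin 2) (hf : ContDiffAt ℝ ((⊤ : ℕ∞) : WithTop ℕ∞) f p) :
    ContDiffAt ℝ ((⊤ : ℕ∞) : WithTop ℕ∞) (dzb k f) p :=
  cda_dzb k hf (by norm_cast)

theorem sm_dz {V : Type*} [NormedAddCommGroup V] [NormedSpace ℂ V]
    {f : C2 → V} {p : C2} (k : Fin 2) (hf : ContDiffAt ℝ ((⊤ : ℕ∞) : WithTop ℕ∞) f p) :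
    ContDiffAt ℝ ((⊤ : ℕ∞) : WithTop ℕ∞) (dz k f) p :=
  cda_dz k hf (by norm_cast)

/-- `f` is differentiable at `p` with `dzb k f p = f'`. -/
structure HD (k : Fin 2) (f : C2 → ℂ) (f' : ℂ) (p : C2) : Prop where
  d : DifferentiableAt ℝ f p
  e : dzb k f p = f'

theorem hd_self {k : Fin 2} {f : C2 → ℂ} {p : C2} (h : DifferentiableAt ℝ f p) :
    HD k f (dzb k f p) p := ⟨h, rfl⟩

theorem HD.add {k : Fin 2} {f g : C2 → ℂ} {f' g' : ℂ} {p : C2} (hf : HD k f f' p)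
    (hg : HD k g g' p) : HD k (fun q => f q + g q) (f' + g') p := by
  refine ⟨hf.d.add hg.d, ?_⟩
  rw [← hf.e, ← hg.e]
  have h1 : fderiv ℝ (fun q => f q + g q) p = fderiv ℝ f p + fderiv ℝ g p :=
    fderiv_add hf.d hg.d
  simp only [dzb, h1, add_apply, smul_eq_mul]
  ring

theorem HD.neg {k : Fin 2} {f : C2 → ℂ} {f' : ℂ} {p : C2} (hf : HD k f f' p) :
    HD k (fun q => - f q) (- f') p := by
  refine ⟨hf.d.neg, ?_⟩
  rw [← hf.e]
  have h1 : fderiv ℝ (fun q => - f q) p = - fderiv ℝ f p := fderiv_neg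
  simp only [dzb, h1, neg_apply, smul_eq_mul]
  ring

theorem HD.sub {k : Fin 2} {f g : C2 → ℂ} {f' g' : ℂ} {p : C2} (hf : HD k f f' p)
    (hg : HD k g g' p) : HD k (fun q => f q - g q) (f' - g') p := by
  have := hf.add hg.neg
  simpa [sub_eq_add_neg] using this

theorem hd_const (k : Fin 2) (c : ℂ) (p : C2) : HD k (fun _ => c) 0 p := by
  refine ⟨differentiableAt_const c, ?_⟩
  simp [dzb]

theorem HD.mul {k : Fin 2} {f g : C2 → ℂ} {f' g' : ℂ} {p : C2} (hf : HD k f f' p)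
    (hg : HD k g g' p) : HD k (fun q => f q * g q) (f' * g p + f p * g') p := by
  refine ⟨hf.d.mul hg.d, ?_⟩
  rw [← hf.e, ← hg.e]
  have h1 : fderiv ℝ (fun q => f q * g q) p = f p • fderiv ℝ g p + g p • fderiv ℝ f p :=
    fderiv_mul hf.d hg.d
  simp only [dzb, h1, add_apply, smul_apply, smul_eq_mul]
  ring

theorem HD.congr {k : Fin 2} {f g : C2 → ℂ} {f' : ℂ} {p : C2} (hf : HD k f f' p)
    (h : g =ᶠ[nhds p] f) : HD k g f' p := by
  refine ⟨hf.d.congr_of_eventuallyEq h, ?_⟩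
  rw [← hf.e]
  simp only [dzb, h.fderiv_eq]

theorem HD.unique {k : Fin 2} {f : C2 → ℂ} {a b : ℂ} {p : C2} (h : HD k f a p)
    (h' : HD k f b p) : a = b := by rw [← h.e, ← h'.e]

/-- The second derivatives commute. -/
theorem dzb_comm {f : C2 → ℂ} {p : C2} (hf : ContDiffAt ℝ 2 f p) :
    dzb 0 (dzb 1 f) p = dzb 1 (dzb 0 f) p := by
  have hsym : IsSymmSndFDerivAt ℝ f p := hf.isSymmSndFDerivAt (by simp)
  have h1 : DifferentiableAt ℝ (fderiv ℝ f) p :=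
    (hf.fderiv_right (m := 1) (by norm_num)).differentiableAt (by norm_num)
  have key : ∀ (j k : Fin 2), dzb j (dzb k f) p = (1 / 4 : ℂ) *
      (fderiv ℝ (fderiv ℝ f) p (Pi.single j 1) (Pi.single k 1)
      + I * fderiv ℝ (fderiv ℝ f) p (Pi.single j 1) (Pi.single k I)
      + I * fderiv ℝ (fderiv ℝ f) p (Pi.single j I) (Pi.single k 1)
      + I * I * fderiv ℝ (fderiv ℝ f) p (Pi.single j I) (Pi.single k I)) := by
    intro j k
    have h2 : ∀ v : C2, DifferentiableAt ℝ (fun q => fderiv ℝ f q v) p := fun v =>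
      h1.clm_apply (differentiableAt_const v)
    have h3 : ∀ v w : C2, fderiv ℝ (fun q => fderiv ℝ f q v) p w =
        fderiv ℝ (fderiv ℝ f) p w v := by
      intro v w
      have := (h1.hasFDerivAt.clm_apply (hasFDerivAt_const v p)).fderiv
      rw [this]
      simp
    have h4 : ∀ w : C2, fderiv ℝ (dzb k f) p w = (1 / 2 : ℂ) *
        (fderiv ℝ (fderiv ℝ f) p w (Pi.single k 1)
          + I * fderiv ℝ (fderiv ℝ f) p w (Pi.single k I)) := by
      intro w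
      have h5 : dzb k f = fun q => (1 / 2 : ℂ) * (fderiv ℝ f q (Pi.single k 1)
          + I * fderiv ℝ f q (Pi.single k I)) := by
        ext q
        simp [dzb]
      have h6 := ((((h2 (Pi.single k 1)).hasFDerivAt.add
        ((h2 (Pi.single k I)).hasFDerivAt.const_mul I)).const_mul (1 / 2 : ℂ))).fderiv
      rw [h5]
      refine (congrArg (fun L => L w) h6).trans ?_
      simp only [add_apply, smul_apply, smul_eq_mul, h3]
    simp only [dzb, smul_eq_mul] at h4 ⊢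
    rw [h4, h4]
    ring
  rw [key, key, hsym.eq (Pi.single 0 1) (Pi.single 1 1), hsym.eq (Pi.single 0 1) (Pi.single 1 I),
    hsym.eq (Pi.single 0 I) (Pi.single 1 1), hsym.eq (Pi.single 0 I) (Pi.single 1 I)]
  ring

/-! ### Smoothness of the frame -/

section frame

variable {ρ : C2 → ℝ} (hρ : ContDiff ℝ ((⊤ : ℕ∞) : WithTop ℕ∞) ρ)
include hρ

theorem sm_rc (p : C2) : ContDiffAt ℝ ((⊤ : ℕ∞) : WithTop ℕ∞) (rc ρ) p :=
  (Complex.ofRealCLM.contDiff.comp hρ).contDiffAt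

theorem sm_rj (j : Fin 2) (p : C2) : ContDiffAt ℝ ((⊤ : ℕ∞) : WithTop ℕ∞) (rj ρ j) p :=
  sm_dz j (sm_rc hρ p)

theorem sm_rjb (j : Fin 2) (p : C2) : ContDiffAt ℝ ((⊤ : ℕ∞) : WithTop ℕ∞) (rjb ρ j) p :=
  sm_dzb j (sm_rc hρ p)

theorem sm_rjk (j k : Fin 2) (p : C2) : ContDiffAt ℝ ((⊤ : ℕ∞) : WithTop ℕ∞) (rjk ρ j k) p :=
  sm_dzb k (sm_rj hρ j p)

theorem sm_g2 (p : C2) : ContDiffAt ℝ ((⊤ : ℕ∞) : WithTop ℕ∞) (g2 ρ) p :=
  ((sm_rj hρ 0 p).mul (sm_rjb hρ 0 p)).add ((sm_rj hρ 1 p).mul (sm_rjb hρ 1 p))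

theorem sm_tau (j : Fin 2) (p : C2) :
    ContDiffAt ℝ ((⊤ : ℕ∞) : WithTop ℕ∞) (fun q => tau ρ q j) p := by
  fin_cases j
  · exact sm_rj hρ 1 p
  · exact (sm_rj hρ 0 p).neg

theorem sm_nu (j : Fin 2) (p : C2) (hp : g2 ρ p ≠ 0) :
    ContDiffAt ℝ ((⊤ : ℕ∞) : WithTop ℕ∞) (fun q => nu ρ q j) p := by
  fin_cases j
  · exact (((sm_rjb hρ 0 p).neg).mul ((sm_g2 hρ p).inv hp)).congr_of_eventuallyEq
      (Filter.Eventually.of_forall fun q => div_eq_mul_inv _ _)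
  · exact (((sm_rjb hρ 1 p).neg).mul ((sm_g2 hρ p).inv hp)).congr_of_eventuallyEq
      (Filter.Eventually.of_forall fun q => div_eq_mul_inv _ _)

theorem ev_g2 (p : C2) (hp : g2 ρ p ≠ 0) : ∀ᶠ q in nhds p, g2 ρ q ≠ 0 :=
  (sm_g2 hρ p).continuousAt.eventually_ne hp

theorem dif_nu (p : C2) (hp : g2 ρ p ≠ 0) : DifferentiableAt ℝ (nu ρ) p :=
  differentiableAt_pi.2 fun j => (sm_nu hρ j p hp).differentiableAt (by norm_num)

theorem dif_tau (p : C2) : DifferentiableAt ℝ (tau ρ) p :=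
  differentiableAt_pi.2 fun j => (sm_tau hρ j p).differentiableAt (by norm_num)

omit hρ in
theorem dzb_apply {f : C2 → C2} {p : C2} (hf : DifferentiableAt ℝ f p) (k j : Fin 2) :
    dzb k f p j = dzb k (fun q => f q j) p := by
  have h1 : ∀ w, fderiv ℝ (fun q => f q j) p w = fderiv ℝ f p w j := by
    intro w
    have := ((hasFDerivAt_pi'.1 hf.hasFDerivAt) j).fderiv
    rw [this]
    rfl
  simp only [dzb, h1, Pi.smul_apply, Pi.add_apply]

omit hρ in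
theorem alg0 {a b a' b' w0 w1 f g : ℂ} (hg : g ≠ 0) (hgd : g = a * a' + b * b')
    (hD : a * w0 + b * w1 = - f) :
    w0 = f * (- a' / g) + ((b' * w0 - a' * w1) / g) * b ∧
      w1 = f * (- b' / g) + ((b' * w0 - a' * w1) / g) * (- a) := by
  constructor
  · field_simp
    rw [hgd]
    linear_combination a' * hD
  · field_simp
    rw [hgd]
    linear_combination b' * hD

/-- The components of the first two structure equations. -/
theorem str_nu (p : C2) (hp : g2 ρ p ≠ 0) (k j : Fin 2) :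
    HD k (fun q => nu ρ q j) (fA ρ k p * nu ρ p j + fB ρ k p * tau ρ p j) p := by
  have hrj : ∀ i, HD k (rj ρ i) (rjk ρ i k p) p := fun i =>
    hd_self ((sm_rj hρ i p).differentiableAt (by norm_num))
  have hnu : ∀ i, HD k (fun q => nu ρ q i) (dzb k (fun q => nu ρ q i) p) p := fun i =>
    hd_self ((sm_nu hρ i p hp).differentiableAt (by norm_num))
  have h1 := ((hrj 0).mul (hnu 0)).add ((hrj 1).mul (hnu 1))
  have h2 : HD k (fun q => rj ρ 0 q * nu ρ q 0 + rj ρ 1 q * nu ρ q 1) 0 p := by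
    refine (hd_const k (-1) p).congr ?_
    filter_upwards [ev_g2 hρ p hp] with q hq
    have e0 : nu ρ q 0 = - rjb ρ 0 q / g2 ρ q := rfl
    have e1 : nu ρ q 1 = - rjb ρ 1 q / g2 ρ q := rfl
    rw [e0, e1]
    field_simp
    simp only [g2]
    ring
  have h3 := h1.unique h2
  set w0 := dzb k (fun q => nu ρ q 0) p with hw0
  set w1 := dzb k (fun q => nu ρ q 1) p with hw1
  have hD : rj ρ 0 p * w0 + rj ρ 1 p * w1 = - fA ρ k p := by
    simp only [fA]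
    linear_combination h3
  have hB : fB ρ k p = (rjb ρ 1 p * w0 - rjb ρ 0 p * w1) / g2 ρ p := by
    simp only [fB, sig, dzb_apply (dif_nu hρ p hp) k, hw0, hw1]
  obtain ⟨ha, hb⟩ := alg0 (a := rj ρ 0 p) (b := rj ρ 1 p) (a' := rjb ρ 0 p) (b' := rjb ρ 1 p)
    hp rfl hD
  rw [← hB] at ha hb
  refine ⟨(hnu j).d, ?_⟩
  fin_cases j
  · exact ha
  · exact hb

theorem str_tau (p : C2) (hp : g2 ρ p ≠ 0) (k j : Fin 2) :
    HD k (fun q => tau ρ q j) (fC ρ k p * nu ρ p j + fE ρ k p * tau ρ p j) p := by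
  have hrj : ∀ i, HD k (rj ρ i) (rjk ρ i k p) p := fun i =>
    hd_self ((sm_rj hρ i p).differentiableAt (by norm_num))
  have hta : ∀ i, HD k (fun q => tau ρ q i) (dzb k (fun q => tau ρ q i) p) p := fun i =>
    hd_self ((sm_tau hρ i p).differentiableAt (by norm_num))
  have h1 := ((hrj 0).mul (hta 0)).add ((hrj 1).mul (hta 1))
  have h2 : HD k (fun q => rj ρ 0 q * tau ρ q 0 + rj ρ 1 q * tau ρ q 1) 0 p := by
    refine (hd_const k 0 p).congr ?_
    filter_upwards [] with q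
    have e0 : tau ρ q 0 = rj ρ 1 q := rfl
    have e1 : tau ρ q 1 = - rj ρ 0 q := rfl
    rw [e0, e1]
    ring
  have h3 := h1.unique h2
  set w0 := dzb k (fun q => tau ρ q 0) p with hw0
  set w1 := dzb k (fun q => tau ρ q 1) p with hw1
  have hD : rj ρ 0 p * w0 + rj ρ 1 p * w1 = - fC ρ k p := by
    simp only [fC]
    linear_combination h3
  have hE : fE ρ k p = (rjb ρ 1 p * w0 - rjb ρ 0 p * w1) / g2 ρ p := by
    simp only [fE, sig, dzb_apply (dif_tau hρ p) k, hw0, hw1]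
  obtain ⟨ha, hb⟩ := alg0 (a := rj ρ 0 p) (b := rj ρ 1 p) (a' := rjb ρ 0 p) (b' := rjb ρ 1 p)
    hp rfl hD
  rw [← hE] at ha hb
  refine ⟨(hta j).d, ?_⟩
  fin_cases j
  · exact ha
  · exact hb

theorem sm_fA (k : Fin 2) (p : C2) (hp : g2 ρ p ≠ 0) :
    ContDiffAt ℝ ((⊤ : ℕ∞) : WithTop ℕ∞) (fA ρ k) p :=
  ((sm_rjk hρ 0 k p).mul (sm_nu hρ 0 p hp)).add ((sm_rjk hρ 1 k p).mul (sm_nu hρ 1 p hp))

theorem sm_fC (k : Fin 2) (p : C2) :
    ContDiffAt ℝ ((⊤ : ℕ∞) : WithTop ℕ∞) (fC ρ k) p :=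
  ((sm_rjk hρ 0 k p).mul (sm_tau hρ 0 p)).add ((sm_rjk hρ 1 k p).mul (sm_tau hρ 1 p))

theorem sm_fB (k : Fin 2) (p : C2) (hp : g2 ρ p ≠ 0) :
    ContDiffAt ℝ ((⊤ : ℕ∞) : WithTop ℕ∞) (fB ρ k) p := by
  have h1 := (((sm_rjb hρ 1 p).mul (sm_dzb k (sm_nu hρ 0 p hp))).sub
    ((sm_rjb hρ 0 p).mul (sm_dzb k (sm_nu hρ 1 p hp)))).mul ((sm_g2 hρ p).inv hp)
  refine h1.congr_of_eventuallyEq ?_
  filter_upwards [ev_g2 hρ p hp] with q hq
  simp only [fB, sig, dzb_apply (dif_nu hρ q hq) k, div_eq_mul_inv]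
  rfl

theorem sm_fE (k : Fin 2) (p : C2) (hp : g2 ρ p ≠ 0) :
    ContDiffAt ℝ ((⊤ : ℕ∞) : WithTop ℕ∞) (fE ρ k) p := by
  have h1 := (((sm_rjb hρ 1 p).mul (sm_dzb k (sm_tau hρ 0 p))).sub
    ((sm_rjb hρ 0 p).mul (sm_dzb k (sm_tau hρ 1 p)))).mul ((sm_g2 hρ p).inv hp)
  refine h1.congr_of_eventuallyEq ?_
  filter_upwards [] with q
  simp only [fE, sig, dzb_apply (dif_tau hρ q) k, div_eq_mul_inv]
  rfl

/-- The integrability conditions for a frame `N, T` and a field `U = P N + Q T`. -/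
theorem integ (p : C2) (hp : g2 ρ p ≠ 0) (U : Fin 2 → C2 → ℂ) (P Q : Fin 2 → C2 → ℂ)
    (hU : ∀ j, ContDiffAt ℝ 2 (U j) p) (hP : ∀ k, DifferentiableAt ℝ (P k) p)
    (hQ : ∀ k, DifferentiableAt ℝ (Q k) p)
    (h : ∀ᶠ q in nhds p, ∀ k j, dzb k (U j) q = P k q * nu ρ q j + Q k q * tau ρ q j) :
    (dzb 0 (P 1) p - dzb 1 (P 0) p + P 1 p * fA ρ 0 p - P 0 p * fA ρ 1 p
      + Q 1 p * fC ρ 0 p - Q 0 p * fC ρ 1 p = 0) ∧
    (dzb 0 (Q 1) p - dzb 1 (Q 0) p + P 1 p * fB ρ 0 p - P 0 p * fB ρ 1 p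
      + Q 1 p * fE ρ 0 p - Q 0 p * fE ρ 1 p = 0) := by
  have key : ∀ l k j, dzb l (dzb k (U j)) p =
      (dzb l (P k) p * nu ρ p j + P k p * (fA ρ l p * nu ρ p j + fB ρ l p * tau ρ p j)) +
      (dzb l (Q k) p * tau ρ p j + Q k p * (fC ρ l p * nu ρ p j + fE ρ l p * tau ρ p j)) := by
    intro l k j
    have h1 := ((hd_self (k := l) (hP k)).mul (str_nu hρ p hp l j)).add
      ((hd_self (k := l) (hQ k)).mul (str_tau hρ p hp l j))
    refine (h1.congr ?_).e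
    filter_upwards [h] with q hq
    exact hq k j
  have hc : ∀ j, dzb 0 (dzb 1 (U j)) p = dzb 1 (dzb 0 (U j)) p := fun j => dzb_comm (hU j)
  have e0 := hc 0
  have e1 := hc 1
  rw [key, key] at e0 e1
  have hdet : nu ρ p 0 * tau ρ p 1 - nu ρ p 1 * tau ρ p 0 = 1 := by
    have a0 : nu ρ p 0 = - rjb ρ 0 p / g2 ρ p := rfl
    have a1 : nu ρ p 1 = - rjb ρ 1 p / g2 ρ p := rfl
    have a2 : tau ρ p 0 = rj ρ 1 p := rfl
    have a3 : tau ρ p 1 = - rj ρ 0 p := rfl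
    rw [a0, a1, a2, a3]
    field_simp
    simp only [g2]
    ring
  constructor
  · linear_combination (- (dzb 0 (P 1) p - dzb 1 (P 0) p + P 1 p * fA ρ 0 p - P 0 p * fA ρ 1 p
      + Q 1 p * fC ρ 0 p - Q 0 p * fC ρ 1 p)) * hdet + tau ρ p 1 * e0 - tau ρ p 0 * e1
  · linear_combination (- (dzb 0 (Q 1) p - dzb 1 (Q 0) p + P 1 p * fB ρ 0 p - P 0 p * fB ρ 1 p
      + Q 1 p * fE ρ 0 p - Q 0 p * fE ρ 1 p)) * hdet + nu ρ p 0 * e1 - nu ρ p 1 * e0

omit hρ in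
/-- C1 -/
theorem c1 : C1Stmt := by
  intro ρ hρ p hp
  have hN := integ hρ p hp (fun j q => nu ρ q j) (fA ρ) (fB ρ)
    (fun j => (sm_nu hρ j p hp).of_le (by norm_cast))
    (fun k => (sm_fA hρ k p hp).differentiableAt (by norm_num))
    (fun k => (sm_fB hρ k p hp).differentiableAt (by norm_num)) (by
      filter_upwards [ev_g2 hρ p hp] with q hq k j
      exact (str_nu hρ q hq k j).e)
  have hT := integ hρ p hp (fun j q => tau ρ q j) (fC ρ) (fE ρ)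
    (fun j => (sm_tau hρ j p).of_le (by norm_cast))
    (fun k => (sm_fC hρ k p).differentiableAt (by norm_num))
    (fun k => (sm_fE hρ k p hp).differentiableAt (by norm_num)) (by
      filter_upwards [ev_g2 hρ p hp] with q hq k j
      exact (str_tau hρ q hq k j).e)
  refine ⟨?_, ?_, ?_, ?_, ?_, ?_⟩
  · intro k
    ext j
    rw [dzb_apply (dif_nu hρ p hp) k j, (str_nu hρ p hp k j).e]
    rfl
  · intro k
    ext j
    rw [dzb_apply (dif_tau hρ p) k j, (str_tau hρ p hp k j).e]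
    rfl
  · linear_combination hN.1
  · linear_combination hN.2
  · linear_combination hT.1
  · linear_combination hT.2

end frame

end Pool.Agent.AK.H72
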