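import Pool.Agent.Helper72_AK.C1

/-!
Squad AK (MP_d7b937_an), module C2: the row identity of the tower.
-/

set_option autoImplicit false

namespace Pool.Agent.AK.H72

open Complex Pool.Agent.AK

theorem HD.cmul {k : Fin 2} {f : C2 → ℂ} {f' : ℂ} {p : C2} (c : ℂ) (hf : HD k f f' p) :
    HD k (fun q => c * f q) (c * f') p := by
  have := (hd_const k c p).mul hf
  simpa using this

/-- The derivative of the tower expression. -/
theorem hd_Dk {ρ : C2 → ℝ} {c : ℕ → C2 → ℂ} {p : C2} (k : ℕ) (i j : Fin 2)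
    (hc : ∀ k, DifferentiableAt ℝ (c k) p) (hc' : ∀ k, DifferentiableAt ℝ (dzb i (c k)) p)
    (hA : DifferentiableAt ℝ (fA ρ i) p) (hB : DifferentiableAt ℝ (fB ρ i) p)
    (hC : DifferentiableAt ℝ (fC ρ i) p) (hE : DifferentiableAt ℝ (fE ρ i) p) :
    HD j (Dk ρ c k i) (dzb j (dzb i (c k)) p
      + (((k : ℂ) + 1) * dzb j (fC ρ i) p * c (k + 1) p
        + ((k : ℂ) + 1) * fC ρ i p * dzb j (c (k + 1)) p)
      + ((k : ℂ) * (dzb j (fE ρ i) p - dzb j (fA ρ i) p) * c k p
        + (k : ℂ) * (fE ρ i p - fA ρ i p) * dzb j (c k) p)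
      - (((k - 1 : ℕ) : ℂ) * dzb j (fB ρ i) p * c (k - 1) p
        + ((k - 1 : ℕ) : ℂ) * fB ρ i p * dzb j (c (k - 1)) p)
      + (if k = 0 then dzb j (fA ρ i) p else 0) + (if k = 1 then dzb j (fB ρ i) p else 0)) p := by
  have h1 : HD j (fun q => if k = 0 then fA ρ i q else 0)
      (if k = 0 then dzb j (fA ρ i) p else 0) p := by
    split_ifs
    · exact hd_self hA
    · exact hd_const j 0 p
  have h2 : HD j (fun q => if k = 1 then fB ρ i q else 0)
      (if k = 1 then dzb j (fB ρ i) p else 0) p := by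
    split_ifs
    · exact hd_self hB
    · exact hd_const j 0 p
  exact ((((((hd_self (hc' k)).add (((hd_self hC).cmul _).mul (hd_self (hc (k + 1))))).add
    ((((hd_self hE).sub (hd_self hA)).cmul _).mul (hd_self (hc k)))).sub
    (((hd_self hB).cmul _).mul (hd_self (hc (k - 1))))).add h1).add h2)

/-- C2 -/
theorem c2 : C2Stmt := by
  intro ρ hρ U hU hg c hc k p hp
  have hgp := hg p hp
  have hcp : ∀ k, ContDiffAt ℝ 2 (c k) p := fun k => (hc k).contDiffAt (hU.mem_nhds hp)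
  have hd0 : ∀ k, DifferentiableAt ℝ (c k) p := fun k => (hcp k).differentiableAt (by norm_num)
  have hd1 : ∀ i k, DifferentiableAt ℝ (dzb i (c k)) p := fun i k =>
    (cda_dzb (m := 1) i (hcp k) (by norm_num)).differentiableAt (by norm_num)
  have hA : ∀ i, DifferentiableAt ℝ (fA ρ i) p := fun i =>
    (sm_fA hρ i p hgp).differentiableAt (by norm_num)
  have hB : ∀ i, DifferentiableAt ℝ (fB ρ i) p := fun i =>
    (sm_fB hρ i p hgp).differentiableAt (by norm_num)
  have hC : ∀ i, DifferentiableAt ℝ (fC ρ i) p := fun i =>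
    (sm_fC hρ i p).differentiableAt (by norm_num)
  have hE : ∀ i, DifferentiableAt ℝ (fE ρ i) p := fun i =>
    (sm_fE hρ i p hgp).differentiableAt (by norm_num)
  have e1 := (hd_Dk (ρ := ρ) (c := c) (p := p) k 1 0 hd0 (hd1 1) (hA 1) (hB 1) (hC 1) (hE 1)).e
  have e2 := (hd_Dk (ρ := ρ) (c := c) (p := p) k 0 1 hd0 (hd1 0) (hA 0) (hB 0) (hC 0) (hE 0)).e
  obtain ⟨_, _, sA, sB, sC, sE⟩ := c1 ρ hρ p hgp
  have hcomm := dzb_comm (hcp k)
  rw [e1, e2]
  rcases k with _ | _ | _ | k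
  · simp only [Dk, Nat.cast_zero, zero_add, Nat.cast_one, zero_tsub, tsub_self, if_true, if_false,
      zero_ne_one, one_ne_zero, zero_mul, sub_zero, add_zero, one_mul, add_zero]
    linear_combination hcomm + sA + sC * c 1 p
  · simp only [Dk, zero_add, Nat.cast_one, tsub_self, if_true, if_false, Nat.cast_zero,
      one_ne_zero, zero_mul, sub_zero, add_zero, one_mul, Nat.reduceAdd,
      Nat.reduceSub, OfNat.ofNat_ne_one, OfNat.ofNat_ne_zero, Nat.cast_ofNat]
    linear_combination hcomm + sB + 2 * sC * c 2 p + (sE - sA) * c 1 p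
  · simp only [Dk, zero_add, Nat.cast_one, tsub_self, if_true, if_false, Nat.cast_zero,
      zero_ne_one, one_ne_zero, zero_mul, sub_zero, add_zero, one_mul, Nat.reduceAdd,
      Nat.reduceSub, OfNat.ofNat_ne_one, OfNat.ofNat_ne_zero, Nat.cast_ofNat]
    linear_combination hcomm + 3 * sC * c 3 p + 2 * (sE - sA) * c 2 p - sB * c 1 p
  · have n1 : k + 1 + 1 + 1 + 1 - 1 = k + 1 + 1 + 1 := rfl
    have n2 : k + 1 + 1 + 1 - 1 = k + 1 + 1 := rfl
    have n3 : k + 1 + 1 - 1 = k + 1 := rfl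
    simp only [Dk, n1, n2, n3, if_neg (show ¬ (k + 1 + 1 + 1 = 0) by omega),
      if_neg (show ¬ (k + 1 + 1 + 1 = 1) by omega), if_neg (show ¬ (k + 1 + 1 = 0) by omega),
      if_neg (show ¬ (k + 1 + 1 = 1) by omega), if_neg (show ¬ (k + 1 + 1 + 1 + 1 = 0) by omega),
      if_neg (show ¬ (k + 1 + 1 + 1 + 1 = 1) by omega), add_zero]
    push_cast
    linear_combination hcomm + ((k : ℂ) + 4) * sC * c (k + 1 + 1 + 1 + 1) p
      + ((k : ℂ) + 3) * (sE - sA) * c (k + 1 + 1 + 1) p - ((k : ℂ) + 2) * sB * c (k + 1 + 1) p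

end Pool.Agent.AK.H72
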